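import Pool.Agent.Helper1_NP9.Stmts

/-!
Squad NP9, module FC: the real inequality FC (helper69).
-/

set_option autoImplicit false

namespace Pool.Agent.NP9.H69

open Finset Pool.Agent.NP9

/-- The common estimates of the real inequalities. -/
theorem sz_est {n F c : ℕ} {K v G ρ : ℝ} (h : Sz n F c K v G ρ) (hF : F = n.factorial) :
    (0 : ℝ) < (2 * (c : ℝ)) ^ n / (n.factorial : ℝ) ∧
    |ρ - 2 * v * G - (2 * (c : ℝ)) ^ n / (n.factorial : ℝ)|
      ≤ 0.0021 * ((2 * (c : ℝ)) ^ n / (n.factorial : ℝ) / (F : ℝ)) ∧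
    (2 * (c : ℝ)) ^ n - (1 / 8000) * ((2 * (c : ℝ)) ^ n / (n.factorial : ℝ)) ≤ K := by
  obtain ⟨n1, F1, c1, K1, v1, r1⟩ := h
  have hN : (1 : ℝ) ≤ n := by exact_mod_cast n1
  have hFr : (1 : ℝ) ≤ F := by exact_mod_cast F1
  have hcr : 1000 * ((n : ℝ) + 1) ^ 2 * F ≤ c := by exact_mod_cast c1
  have hfr : (n.factorial : ℝ) = F := by rw [hF]
  have hN2 : (4 : ℝ) * n ≤ ((n : ℝ) + 1) ^ 2 := by nlinarith [sq_nonneg ((n : ℝ) - 1)]
  have hc4 : 4000 * ((n : ℝ) * F) ≤ c := by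
    have := mul_le_mul_of_nonneg_right hN2 (by linarith : (0 : ℝ) ≤ F)
    linarith
  have hcF : 4000 * (F : ℝ) ≤ c := by
    have := mul_le_mul_of_nonneg_right hN (by linarith : (0 : ℝ) ≤ F)
    linarith
  have hc0 : (0 : ℝ) < c := by linarith
  have hx0 : (0 : ℝ) < 2 * (c : ℝ) := by linarith
  have hT0 : (0 : ℝ) < (2 * (c : ℝ)) ^ n := pow_pos hx0 n
  rw [hfr] at r1 ⊢
  have hF0 : (0 : ℝ) < F := by linarith
  have hL0 : (0 : ℝ) < (2 * (c : ℝ)) ^ n / F := div_pos hT0 hF0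
  -- Bernoulli
  have hB : (2 * (c : ℝ)) ^ n * (1 - n / (2 * (c : ℝ))) ≤ (2 * (c : ℝ) - 1) ^ n := by
    have h1 : (1 : ℝ) + n * (-(1 / (2 * (c : ℝ)))) ≤ (1 + (-(1 / (2 * (c : ℝ))))) ^ n := by
      apply one_add_mul_le_pow
      have : 1 / (2 * (c : ℝ)) ≤ 1 := by
        rw [div_le_one hx0]; linarith
      linarith
    have h2 : (2 * (c : ℝ) - 1) ^ n = (2 * (c : ℝ)) ^ n * (1 + (-(1 / (2 * (c : ℝ))))) ^ n := by
      rw [← mul_pow]
      congr 1
      field_simp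
      ring
    rw [h2]
    apply mul_le_mul_of_nonneg_left _ hT0.le
    calc (1 : ℝ) - n / (2 * (c : ℝ)) = 1 + n * (-(1 / (2 * (c : ℝ)))) := by ring
      _ ≤ _ := h1
  have hq : (n : ℝ) / (2 * (c : ℝ)) ≤ 1 / (8000 * F) := by
    rw [div_le_div_iff₀ hx0 (by positivity)]
    linarith
  have hK3 : (2 * (c : ℝ)) ^ n - (1 / 8000) * ((2 * (c : ℝ)) ^ n / F) ≤ K := by
    have h1 : (2 * (c : ℝ)) ^ n * (n / (2 * (c : ℝ))) ≤ (2 * (c : ℝ)) ^ n * (1 / (8000 * F)) :=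
      mul_le_mul_of_nonneg_left hq hT0.le
    have h2 : (2 * (c : ℝ)) ^ n * (1 / (8000 * F)) = (1 / 8000) * ((2 * (c : ℝ)) ^ n / F) := by
      field_simp
    have h3 : (2 * (c : ℝ)) ^ n * (1 - n / (2 * (c : ℝ))) =
        (2 * (c : ℝ)) ^ n - (2 * (c : ℝ)) ^ n * (n / (2 * (c : ℝ))) := by ring
    linarith
  have hLT : (2 * (c : ℝ)) ^ n / F ≤ (2 * (c : ℝ)) ^ n := div_le_self hT0.le hFr
  have hK2 : (2 * (c : ℝ)) ^ n / 2 ≤ K := by linarith
  have hK0 : 0 < K := by linarith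
  -- the second error term
  have hv : 4 * (c : ℝ) * (2 * (c : ℝ)) ^ n / v ≤ 0.08 := by
    rw [v1, div_le_iff₀ (by positivity)]
    have := mul_le_mul_of_nonneg_left hK2 hc0.le
    nlinarith
  -- L ≥ 2c
  have hL2 : 2 * (c : ℝ) ≤ (2 * (c : ℝ)) ^ n / F := by
    obtain ⟨m, rfl⟩ : ∃ m, n = m + 1 := ⟨n - 1, by omega⟩
    rw [le_div_iff₀ hF0, pow_succ, mul_comm (_ ^ m)]
    apply mul_le_mul_of_nonneg_left _ hx0.le
    rw [← hfr]
    have h1 : (m + 1).factorial ≤ (m + 1) ^ m := by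
      clear * -
      induction m with
      | zero => simp
      | succ k ih =>
        rw [Nat.factorial_succ, pow_succ, mul_comm ((k + 1 + 1) ^ k)]
        apply Nat.mul_le_mul_left
        exact ih.trans (Nat.pow_le_pow_left (by omega) k)
    have h2 : ((m + 1).factorial : ℝ) ≤ ((m : ℝ) + 1) ^ m := by exact_mod_cast h1
    refine h2.trans (pow_le_pow_left₀ (by positivity) ?_ m)
    push_cast at hc4 hN
    have h4 : (m : ℝ) + 1 ≤ ((m : ℝ) + 1) * F := le_mul_of_one_le_right (by positivity) hFr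
    linarith
  have h8 : (0.08 : ℝ) ≤ 0.00001 * ((2 * (c : ℝ)) ^ n / F / F) := by
    have h1 : 8000 ≤ (2 * (c : ℝ)) ^ n / F / F := by
      rw [le_div_iff₀ hF0]
      linarith
    linarith
  -- the first error term
  have h9 : (n : ℝ) ^ 2 / (c : ℝ) ≤ 1 / (1000 * F) := by
    rw [div_le_div_iff₀ hc0 (by positivity)]
    have h1 : (n : ℝ) ^ 2 ≤ ((n : ℝ) + 1) ^ 2 := by nlinarith
    have h2 := mul_le_mul_of_nonneg_right h1 hF0.le
    linarith
  have h10 : 2 * ((n : ℝ) ^ 2 / (c : ℝ)) * ((2 * (c : ℝ)) ^ n / F) ≤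
      0.002 * ((2 * (c : ℝ)) ^ n / F / F) := by
    have h1 := mul_le_mul_of_nonneg_right h9 hL0.le
    have h2 : 1 / (1000 * (F : ℝ)) * ((2 * (c : ℝ)) ^ n / F) =
        0.001 * ((2 * (c : ℝ)) ^ n / F / F) := by
      field_simp
      norm_num
    linarith
  have h11 : 0 ≤ (2 * (c : ℝ)) ^ n / F / F := by positivity
  refine ⟨hL0, ?_, hK3⟩
  linarith

theorem fc : FcStmt := by
  intro n F c K v ρ G h hK hF
  obtain ⟨hL0, he, hK3⟩ := sz_est h hF
  have hFr : (1 : ℝ) ≤ F := by exact_mod_cast h.F1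
  have hF0 : (0 : ℝ) < F := by linarith
  have hfr : (n.factorial : ℝ) = F := by rw [hF]
  rw [hfr] at hL0 he hK3
  set L : ℝ := (2 * (c : ℝ)) ^ n / F with hL
  set Z : ℝ := ρ - 2 * v * (G : ℝ) with hZ
  have hT : (2 * (c : ℝ)) ^ n = F * L := by
    rw [hL]; field_simp
  rw [hT] at hK hK3
  rw [abs_le] at he
  have h1 : L / F ≤ L := div_le_self hL0.le hFr
  have h2 : F * (L / F) = L := by field_simp
  have h3 : F * (L - 0.0021 * (L / F)) ≤ F * Z :=
    mul_le_mul_of_nonneg_left (by linarith) hF0.le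
  have h4 : F * Z ≤ F * (L + 0.0021 * (L / F)) :=
    mul_le_mul_of_nonneg_left (by linarith) hF0.le
  have h5 : F * (L - 0.0021 * (L / F)) = F * L - 0.0021 * L := by
    rw [mul_sub, mul_left_comm, h2]
  have h6 : F * (L + 0.0021 * (L / F)) = F * L + 0.0021 * L := by
    rw [mul_add, mul_left_comm, h2]
  have h7 : K - F * Z ≤ 0.0021 * L := by linarith
  have h8 : -(0.0024 * L) ≤ K - F * Z := by linarith
  have h9 : 0.99 * L ≤ Z := by linarith
  have h10 : (K - F * Z) ^ 2 ≤ (0.0024 * L) ^ 2 := by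
    apply sq_le_sq'
    · exact h8
    · linarith
  have h11 : (0.99 * L) ^ 2 ≤ Z ^ 2 := pow_le_pow_left₀ (by positivity) h9 2
  have h12 : 0 < L ^ 2 := by positivity
  nlinarith

end Pool.Agent.NP9.H69
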