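import Pool.Agent.Helper1_NP9.Stmts

/-!
Squad NP9, module SEC: the digits (helper69).
-/

set_option autoImplicit false

namespace Pool.Agent.NP9.H69

open Finset Pool.Agent.NP9

/-- the digits, by strong recursion -/
def dig (c n : ℕ) (s : ℕ) : ℤ :=
  (((2 * c - 1 - s).choose s : ℕ) : ℤ) -
    ∑ j : Fin (s / 2), (-1) ^ (j.1 + 1) *
      (((c - n - 1 - (j.1 + 1)).choose (j.1 + 1) : ℕ) : ℤ) * dig c n (s - 2 * (j.1 + 1))
termination_by s
decreasing_by
  have := j.2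
  omega

theorem dig_eq (c n s : ℕ) : dig c n s = (((2 * c - 1 - s).choose s : ℕ) : ℤ) -
    ∑ j ∈ range (s / 2), (-1) ^ (j + 1) *
      (((c - n - 1 - (j + 1)).choose (j + 1) : ℕ) : ℤ) * dig c n (s - 2 * (j + 1)) := by
  rw [dig]
  rw [Fin.sum_univ_eq_sum_range (fun j => (-1) ^ (j + 1) *
      (((c - n - 1 - (j + 1)).choose (j + 1) : ℕ) : ℤ) * dig c n (s - 2 * (j + 1))) (s / 2)]

theorem geo_sum {x : ℝ} (h0 : 0 ≤ x) (h1 : x ≤ 1 / 3) (k : ℕ) :
    ∑ j ∈ range k, x ^ (j + 1) ≤ 3 / 2 * x := by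
  have key : ∑ j ∈ range k, x ^ (j + 1) ≤ 3 / 2 * x * (1 - x ^ k) := by
    induction k with
    | zero => simp
    | succ k ih =>
      rw [sum_range_succ]
      have hp : 0 ≤ x ^ (k + 1) := pow_nonneg h0 _
      have e1 : 3 / 2 * x * (1 - x ^ (k + 1)) - 3 / 2 * x * (1 - x ^ k) - x ^ (k + 1)
          = x ^ (k + 1) * (3 / 2 * (1 - x) - 1) := by
        rw [pow_succ]; ring
      have e2 : 0 ≤ x ^ (k + 1) * (3 / 2 * (1 - x) - 1) :=
        mul_nonneg hp (by linarith)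
      linarith
  have hp : 0 ≤ x ^ k := pow_nonneg h0 _
  have : 0 ≤ 3 / 2 * x * x ^ k := by positivity
  nlinarith

/-- The difference of the digit and its first term. -/
theorem dig_diff (c n s : ℕ) (B : ℕ → ℝ)
    (hB : ∀ j ∈ range (s / 2), |(dig c n (s - 2 * (j + 1)) : ℝ)| ≤ B (s - 2 * (j + 1))) :
    |(dig c n s : ℝ) - (((2 * c - 1 - s).choose s : ℕ) : ℝ)| ≤
      ∑ j ∈ range (s / 2), (c : ℝ) ^ (j + 1) * B (s - 2 * (j + 1)) := by
  rw [dig_eq c n s]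
  push_cast
  rw [sub_sub_cancel_left, abs_neg]
  refine (abs_sum_le_sum_abs _ _).trans (sum_le_sum fun j hj => ?_)
  rw [abs_mul, abs_mul, abs_pow, abs_neg, abs_one, one_pow, one_mul, Nat.abs_cast]
  have h1 : (((c - n - 1 - (j + 1)).choose (j + 1) : ℕ) : ℝ) ≤ (c : ℝ) ^ (j + 1) := by
    have h2 : (c - n - 1 - (j + 1)).choose (j + 1) ≤ c ^ (j + 1) :=
      (Nat.choose_le_pow _ _).trans (Nat.pow_le_pow_left (by omega) _)
    exact_mod_cast h2
  exact mul_le_mul h1 (hB j hj) (abs_nonneg _) (by positivity)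

theorem dig_bd (c n : ℕ) (hc : 1 ≤ c) (s : ℕ) : |(dig c n s : ℝ)| ≤ 2 * (2 * (c : ℝ)) ^ s := by
  have hcr : (1 : ℝ) ≤ c := by exact_mod_cast hc
  induction s using Nat.strong_induction_on with
  | _ s ih =>
  have h1 := dig_diff c n s (fun i => 2 * (2 * (c : ℝ)) ^ i) (fun j hj => by
    rw [mem_range] at hj
    exact ih _ (by omega))
  have h2 : ∑ j ∈ range (s / 2), (c : ℝ) ^ (j + 1) * (2 * (2 * (c : ℝ)) ^ (s - 2 * (j + 1)))
      = 2 * (2 * (c : ℝ)) ^ s * ∑ j ∈ range (s / 2), (1 / (4 * (c : ℝ))) ^ (j + 1) := by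
    rw [mul_sum]
    refine sum_congr rfl fun j hj => ?_
    rw [mem_range] at hj
    have e1 : (2 * (c : ℝ)) ^ s =
        (2 * (c : ℝ)) ^ (s - 2 * (j + 1)) * (4 * (c : ℝ) * c) ^ (j + 1) := by
      have : 4 * (c : ℝ) * c = (2 * (c : ℝ)) ^ 2 := by ring
      rw [this, ← pow_mul, ← pow_add]
      congr 1
      omega
    rw [e1, mul_pow (4 * (c : ℝ)) (c : ℝ) (j + 1), one_div, inv_pow]
    field_simp
  have h3 := geo_sum (x := 1 / (4 * (c : ℝ))) (by positivity)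
    (by rw [div_le_div_iff₀ (by positivity) (by norm_num)]; linarith) (s / 2)
  have h4 : 1 / (4 * (c : ℝ)) ≤ 1 / 4 := by
    rw [div_le_div_iff₀ (by positivity) (by norm_num)]; linarith
  have h5 : (0 : ℝ) ≤ 2 * (2 * (c : ℝ)) ^ s := by positivity
  have h6 : 2 * (2 * (c : ℝ)) ^ s * ∑ j ∈ range (s / 2), (1 / (4 * (c : ℝ))) ^ (j + 1) ≤
      2 * (2 * (c : ℝ)) ^ s * (1 / 2) := by
    apply mul_le_mul_of_nonneg_left _ h5
    linarith
  have h7 : (((2 * c - 1 - s).choose s : ℕ) : ℝ) ≤ (2 * (c : ℝ)) ^ s := by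
    have h8 : (2 * c - 1 - s).choose s ≤ (2 * c) ^ s :=
      (Nat.choose_le_pow _ _).trans (Nat.pow_le_pow_left (by omega) _)
    exact_mod_cast h8
  have h9 : (0 : ℝ) ≤ (((2 * c - 1 - s).choose s : ℕ) : ℝ) := by positivity
  rw [h2] at h1
  rw [abs_le] at h1 ⊢
  constructor <;> linarith

theorem dig_main (c n : ℕ) (hn : 1 ≤ n) (hc : 8 * n ^ 2 ≤ c) (s : ℕ) (hs : s ≤ n) :
    0 ≤ dig c n s ∧
        |(dig c n s : ℝ) - (2 * (c : ℝ)) ^ s / (s.factorial : ℝ)|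
          ≤ 2 * ((s : ℝ) ^ 2 / (c : ℝ)) * ((2 * (c : ℝ)) ^ s / (s.factorial : ℝ)) := by
  have hcr : 8 * (n : ℝ) ^ 2 ≤ c := by exact_mod_cast hc
  have hnr : (1 : ℝ) ≤ n := by exact_mod_cast hn
  have hc0 : (0 : ℝ) < c := by nlinarith
  have hn2 : n ≤ n ^ 2 := by nlinarith
  induction s using Nat.strong_induction_on with
  | _ s ih =>
  have hsr : (s : ℝ) ≤ n := by exact_mod_cast hs
  have hs0 : (0 : ℝ) ≤ s := by positivity
  have hs2 : (s : ℝ) ^ 2 ≤ (n : ℝ) ^ 2 := pow_le_pow_left₀ hs0 hsr 2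
  have hsc : (s : ℝ) ^ 2 / c ≤ 1 / 8 := by
    rw [div_le_div_iff₀ hc0 (by norm_num)]; linarith
  have hsc0 : 0 ≤ (s : ℝ) ^ 2 / c := by positivity
  have hf0 : (0 : ℝ) < (s.factorial : ℝ) := by exact_mod_cast Nat.factorial_pos s
  set L : ℝ := (2 * (c : ℝ)) ^ s / (s.factorial : ℝ) with hL
  have hL0 : 0 < L := by positivity
  -- the bound of the earlier digits
  have hB : ∀ j ∈ range (s / 2), |(dig c n (s - 2 * (j + 1)) : ℝ)| ≤
      (fun i : ℕ => 2 * ((2 * (c : ℝ)) ^ i / (i.factorial : ℝ))) (s - 2 * (j + 1)) := by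
    intro j hj
    rw [mem_range] at hj
    obtain ⟨-, h⟩ := ih (s - 2 * (j + 1)) (by omega) (by omega)
    show |(dig c n (s - 2 * (j + 1)) : ℝ)| ≤ 2 * _
    generalize hi : s - 2 * (j + 1) = i at h
    have his : (i : ℝ) ≤ n := by
      have : i ≤ n := by omega
      exact_mod_cast this
    have hi0 : (0 : ℝ) ≤ i := by positivity
    have hi2 : (i : ℝ) ^ 2 ≤ (n : ℝ) ^ 2 := pow_le_pow_left₀ hi0 his 2
    have hic : (i : ℝ) ^ 2 / c ≤ 1 / 8 := by
      rw [div_le_div_iff₀ hc0 (by norm_num)]; linarith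
    have hic0 : 0 ≤ (i : ℝ) ^ 2 / c := by positivity
    have hLi : 0 ≤ (2 * (c : ℝ)) ^ i / (i.factorial : ℝ) := by positivity
    have h2 := mul_le_mul_of_nonneg_right hic hLi
    rw [abs_le] at h ⊢
    constructor <;> linarith
  have h1 := dig_diff c n s (fun i : ℕ => 2 * ((2 * (c : ℝ)) ^ i / (i.factorial : ℝ))) hB
  have h2 : ∑ j ∈ range (s / 2), (c : ℝ) ^ (j + 1) *
      (fun i : ℕ => 2 * ((2 * (c : ℝ)) ^ i / (i.factorial : ℝ))) (s - 2 * (j + 1))
      ≤ 2 * L * ∑ j ∈ range (s / 2), ((s : ℝ) ^ 2 / (4 * (c : ℝ))) ^ (j + 1) := by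
    rw [mul_sum]
    refine sum_le_sum fun j hj => ?_
    rw [mem_range] at hj
    show (c : ℝ) ^ (j + 1) * (2 * _) ≤ _
    have hk : 2 * (j + 1) ≤ s := by omega
    have hdf : s.factorial ≤ (s - 2 * (j + 1)).factorial * s ^ (2 * (j + 1)) := by
      rw [← Nat.factorial_mul_descFactorial hk]
      exact Nat.mul_le_mul_left _ (Nat.descFactorial_le_pow _ _)
    have hdfr : (s.factorial : ℝ) ≤
        ((s - 2 * (j + 1)).factorial : ℝ) * ((s : ℝ) ^ 2) ^ (j + 1) := by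
      rw [← pow_mul]
      exact_mod_cast hdf
    have hf1 : (0 : ℝ) < ((s - 2 * (j + 1)).factorial : ℝ) := by
      exact_mod_cast Nat.factorial_pos _
    have e1 : (2 * (c : ℝ)) ^ s =
        (2 * (c : ℝ)) ^ (s - 2 * (j + 1)) * (4 * (c : ℝ) * c) ^ (j + 1) := by
      have : 4 * (c : ℝ) * c = (2 * (c : ℝ)) ^ 2 := by ring
      rw [this, ← pow_mul, ← pow_add]
      congr 1
      omega
    have e2 : 2 * L * ((s : ℝ) ^ 2 / (4 * (c : ℝ))) ^ (j + 1) =
        (c : ℝ) ^ (j + 1) * (2 * ((2 * (c : ℝ)) ^ (s - 2 * (j + 1)) *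
          (((s : ℝ) ^ 2) ^ (j + 1) / (s.factorial : ℝ)))) := by
      rw [hL, e1, mul_pow (4 * (c : ℝ)) (c : ℝ) (j + 1), div_pow]
      field_simp
    rw [e2]
    apply mul_le_mul_of_nonneg_left _ (by positivity)
    apply mul_le_mul_of_nonneg_left _ (by norm_num)
    rw [div_eq_mul_inv]
    apply mul_le_mul_of_nonneg_left _ (by positivity)
    rw [← one_div, div_le_div_iff₀ hf1 hf0]
    linarith
  have hx0 : 0 ≤ (s : ℝ) ^ 2 / (4 * (c : ℝ)) := by positivity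
  have hx1 : (s : ℝ) ^ 2 / (4 * (c : ℝ)) = (1 / 4) * ((s : ℝ) ^ 2 / c) := by
    field_simp
  have h3 := geo_sum hx0 (by rw [hx1]; linarith) (s / 2)
  have h4 : 2 * L * ∑ j ∈ range (s / 2), ((s : ℝ) ^ 2 / (4 * (c : ℝ))) ^ (j + 1) ≤
      L * ((s : ℝ) ^ 2 / c) := by
    have h5 := mul_le_mul_of_nonneg_left h3 (by positivity : 0 ≤ 2 * L)
    rw [hx1] at h5
    have h6 : 0 ≤ L * ((s : ℝ) ^ 2 / c) := by positivity
    rw [hx1]
    nlinarith
  -- the first term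
  have h7 : (((2 * c - 1 - s).choose s : ℕ) : ℝ) ≤ L := by
    have h8 : (((2 * c - 1 - s).choose s : ℕ) : ℝ) ≤
        ((2 * c - 1 - s : ℕ) : ℝ) ^ s / (s.factorial : ℝ) := Nat.choose_le_pow_div s _
    refine h8.trans ?_
    rw [hL]
    apply div_le_div_of_nonneg_right _ hf0.le
    apply pow_le_pow_left₀ (by positivity)
    have : 2 * c - 1 - s ≤ 2 * c := by omega
    exact_mod_cast this
  have h9 : L * (1 - (s : ℝ) ^ 2 / c) ≤ (((2 * c - 1 - s).choose s : ℕ) : ℝ) := by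
    have h10 : ((2 * c - 1 - s + 1 - s : ℕ) : ℝ) ^ s ≤
        (s.factorial : ℝ) * (((2 * c - 1 - s).choose s : ℕ) : ℝ) := by
      have h := Nat.pow_le_choose s (2 * c - 1 - s) (α := ℝ)
      rw [div_le_iff₀ hf0] at h
      rw [mul_comm (s.factorial : ℝ)]
      exact_mod_cast h
    have h11 : 2 * c - 1 - s + 1 - s = 2 * (c - s) := by omega
    have hsle : s ≤ c := by omega
    rw [h11] at h10
    push_cast [Nat.cast_sub hsle] at h10
    have h12 : (1 : ℝ) + s * (-((s : ℝ) / c)) ≤ (1 + (-((s : ℝ) / c))) ^ s := by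
      apply one_add_mul_le_pow
      have : (s : ℝ) / c ≤ 1 := by
        rw [div_le_one hc0]; exact_mod_cast hsle
      linarith
    have h13 : (2 * ((c : ℝ) - s)) ^ s = (2 * (c : ℝ)) ^ s * (1 + (-((s : ℝ) / c))) ^ s := by
      rw [← mul_pow]
      congr 1
      field_simp
      ring
    rw [h13] at h10
    have h14 : (2 * (c : ℝ)) ^ s * (1 - (s : ℝ) ^ 2 / c) ≤
        (2 * (c : ℝ)) ^ s * (1 + (-((s : ℝ) / c))) ^ s := by
      apply mul_le_mul_of_nonneg_left _ (by positivity)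
      calc (1 : ℝ) - (s : ℝ) ^ 2 / c = 1 + s * (-((s : ℝ) / c)) := by ring
        _ ≤ _ := h12
    rw [hL, div_mul_eq_mul_div, div_le_iff₀ hf0]
    linarith
  have h15 : L * ((s : ℝ) ^ 2 / c) ≤ L * (1 / 8) := mul_le_mul_of_nonneg_left hsc hL0.le
  have h16 := h1.trans (h2.trans h4)
  rw [abs_le] at h16
  constructor
  · have : (0 : ℝ) ≤ (dig c n s : ℝ) := by
      nlinarith
    exact_mod_cast this
  · rw [abs_le]
    constructor <;> nlinarith

theorem sec : SecStmt := by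
  intro c n hn hc
  refine ⟨dig c n, fun s => ?_, fun s => ?_, fun s hs => dig_main c n hn hc s hs⟩
  · have h := dig_eq c n s
    rw [sum_range_succ']
    rw [pow_zero, Nat.choose_zero_right, Nat.cast_one, mul_one, one_mul, Nat.mul_zero,
      Nat.sub_zero]
    linarith
  · exact dig_bd c n (by nlinarith) s

end Pool.Agent.NP9.H69
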